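import Pool.Agent.N357.AP.Density

/-!
# The values of the least deficient multiplier are `3` and the almost perfect numbers

`sig n` is the sum of the positive divisors of `n`; `a n` is the least `k ≥ 1` such that `k` is
deficient and `k n` is not (`Pool.Agent.N357.AP`); `AlmostPerfect k` means `k ≥ 1` and
`σ(k) = 2 k - 1`.

Outline.  For even `n` the multiplier `3` works.  Let `n ≥ 3` be odd.  If `k` works and
`σ(k) ≤ 2 k - 2`, then `n k ≤ (k - 1) σ(n)` by `σ(k n) ≤ σ(k) σ(n)`, and this implies that the largest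
power of two `2^j ≤ k` works, as `k ≤ 2^(j+1) - 1`.  So `a(n)` is a power of two or has
`σ(k) = 2 k - 1`.  Conversely let `k ≥ 2` be almost perfect.  As the sum of the reciprocals of the
primes diverges, there is a product `n` of distinct primes larger than `k` with
`2 k/(2 k - 1) ≤ σ(n)/n < (2 k - 2)/(2 k - 3)`; then `k` works for `n` and no smaller number does.
-/

set_option autoImplicit false

namespace Pool.Agent.Results.MP_c5ead3_nt.AlmostPerfectRange

open Pool.Agent.N357.AP

/-- (1) The values `a(n)`, `n ≥ 2`, are exactly `3` and the almost perfect numbers.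
(2) For odd `n ≥ 3` the value `a(n)` is almost perfect.
(3) The statement of Q1, that `a(n)` is `1`, `3` or a power of `2` for every `n ≥ 2`, holds if and only
if every almost perfect number is a power of `2`. -/
theorem result :
    (∀ k : ℕ, (∃ n : ℕ, 2 ≤ n ∧ a n = k) ↔ (k = 3 ∨ AlmostPerfect k)) ∧
    (∀ n : ℕ, 3 ≤ n → n % 2 = 1 → AlmostPerfect (a n)) ∧
    ((∀ n : ℕ, 2 ≤ n → (a n = 1 ∨ a n = 3 ∨ ∃ j : ℕ, a n = 2 ^ j)) ↔
      (∀ k : ℕ, AlmostPerfect k → ∃ j : ℕ, k = 2 ^ j)) := by
  have h3 : ¬ AlmostPerfect 3 := by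
    rintro ⟨-, h⟩
    rw [sig_three] at h
    omega
  have h1 : ∀ k : ℕ, (∃ n : ℕ, 2 ≤ n ∧ a n = k) ↔ (k = 3 ∨ AlmostPerfect k) := by
    intro k
    constructor
    · rintro ⟨n, hn, rfl⟩
      rcases Nat.mod_two_eq_zero_or_one n with h | h
      · exact a_even h hn
      · right; exact a_odd h hn
    · rintro (rfl | hk)
      · exact ⟨2, le_rfl, a_two⟩
      · exact exists_a_eq hk
  refine ⟨h1, fun n hn ho => a_odd ho (by omega), ?_⟩
  constructor
  · intro h k hk
    obtain ⟨n, hn, hnk⟩ := (h1 k).2 (Or.inr hk)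
    rcases h n hn with h4 | h4 | ⟨j, h4⟩
    · exact ⟨0, by rw [← hnk, h4]; norm_num⟩
    · exfalso
      rw [hnk] at h4
      rw [h4] at hk
      exact h3 hk
    · exact ⟨j, by rw [← hnk, h4]⟩
  · intro h n hn
    rcases (h1 (a n)).1 ⟨n, hn, rfl⟩ with h4 | h4
    · right; left; exact h4
    · right; right
      exact h _ h4

end Pool.Agent.Results.MP_c5ead3_nt.AlmostPerfectRange
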